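import Mathlib

/-!
# Chains of integers whose differences lie in given intervals of increasing scales: counting
-/

set_option autoImplicit false

open scoped Classical

namespace Pool.Agent.J4H77.EI

open Finset

/-- the chain with the parameters `x` -/
def vv (n : ℕ) (Z u : ℕ → ℕ) (x : Fin n → ℕ) (j : ℕ) : ℕ :=
  if h : 0 < j ∧ j ≤ n then u (j - 1) + Z (j - 1) / 2 + x ⟨j - 1, by omega⟩ else 0

theorem vv_pos {n : ℕ} {Z u : ℕ → ℕ} {x : Fin n → ℕ} {j : ℕ} (h0 : 0 < j) (hj : j ≤ n) :
    vv n Z u x j = u (j - 1) + Z (j - 1) / 2 + x ⟨j - 1, by omega⟩ := dif_pos ⟨h0, hj⟩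

theorem far {n : ℕ} {Z u : ℕ → ℕ} (hZ : ∀ j, j + 1 < n → 2 * (u j + Z j) ≤ Z (j + 1)) :
    ∀ b a : ℕ, a < b → b < n → 2 * (u a + Z a) ≤ Z b := by
  intro b
  induction b with
  | zero => exact fun a h => absurd h (by omega)
  | succ b ih =>
    intro a hab hb
    rcases Nat.lt_or_ge a b with h | h
    · have h1 := ih a h (by omega)
      have h2 := hZ b hb
      omega
    · have : a = b := by omega
      subst this
      exact hZ a hb

/-- the parameters -/
def XX (Z : ℕ → ℕ) (j : ℕ) : Finset ℕ := Icc 1 (Z j - Z j / 2)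

theorem vv_chain {n : ℕ} {Z u : ℕ → ℕ} (hZ : ∀ j, j + 1 < n → 2 * (u j + Z j) ≤ Z (j + 1))
    {x : Fin n → ℕ} (hx : ∀ j : Fin n, x j ∈ XX Z j) :
    ∀ i j, i < j → j ≤ n → vv n Z u x i < vv n Z u x j ∧
      vv n Z u x j ≤ u (j - 1) + Z (j - 1) ∧ u (j - 1) < vv n Z u x j - vv n Z u x i := by
  have hup : ∀ j, 0 < j → j ≤ n → vv n Z u x j ≤ u (j - 1) + Z (j - 1) ∧
      u (j - 1) + Z (j - 1) / 2 < vv n Z u x j := by
    intro j h0 hj
    rw [vv_pos h0 hj]
    have h1 := mem_Icc.1 (hx ⟨j - 1, by omega⟩)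
    simp only at h1
    omega
  intro i j hij hj
  obtain ⟨h1, h2⟩ := hup j (by omega) hj
  have h3 : 2 * vv n Z u x i ≤ Z (j - 1) := by
    rcases Nat.eq_zero_or_pos i with h | h
    · subst h
      unfold vv
      rw [dif_neg (by omega)]
      omega
    · have h4 := (hup i h (by omega)).1
      have h5 := far hZ (j - 1) (i - 1) (by omega) (by omega)
      omega
  exact ⟨by omega, h1, by omega⟩

/-- equality of the chains -/
theorem vv_inj {n k : ℕ} {Z u : ℕ → ℕ} {x y : Fin n → ℕ}
    (hx : ∀ i j, i < j → j ≤ n → vv n Z u x i < vv n Z u x j)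
    (hy : ∀ i j, i < j → j ≤ n → vv n Z u y i < vv n Z u y j)
    (p : Fin (k * 2) → Fin (n + 1)) (hp : StrictMono p) (O : Finset (Fin n))
    (hO : ∀ j ∈ O, ∃ s : Fin k, (p ⟨(s : ℕ) * 2 + 1, by have := s.2; omega⟩ : ℕ) = (j : ℕ) + 1)
    (h1 : ∀ j, j ∉ O → x j = y j)
    (h2 : ∀ s : Fin k, vv n Z u x (p ⟨(s : ℕ) * 2 + 1, by have := s.2; omega⟩) -
        vv n Z u x (p ⟨(s : ℕ) * 2, by have := s.2; omega⟩) =
      vv n Z u y (p ⟨(s : ℕ) * 2 + 1, by have := s.2; omega⟩) -
        vv n Z u y (p ⟨(s : ℕ) * 2, by have := s.2; omega⟩)) : x = y := by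
  have key : ∀ m : ℕ, ∀ j : Fin n, (j : ℕ) = m → x j = y j := by
    intro m
    induction m using Nat.strong_induction_on with
    | _ m ih =>
      intro j hj
      by_cases hjO : j ∈ O
      · obtain ⟨s, hs⟩ := hO j hjO
        have hlt : (p ⟨(s : ℕ) * 2, by have := s.2; omega⟩ : ℕ) <
            (p ⟨(s : ℕ) * 2 + 1, by have := s.2; omega⟩ : ℕ) :=
          hp (by rw [Fin.lt_def]; simp)
        set A : ℕ := (p ⟨(s : ℕ) * 2, by have := s.2; omega⟩ : ℕ) with hA
        set B : ℕ := (p ⟨(s : ℕ) * 2 + 1, by have := s.2; omega⟩ : ℕ) with hB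
        have hBn : B ≤ n := by
          have := (p ⟨(s : ℕ) * 2 + 1, by have := s.2; omega⟩).2
          omega
        have h3 : vv n Z u x A = vv n Z u y A := by
          unfold vv
          by_cases hA0 : 0 < A ∧ A ≤ n
          · rw [dif_pos hA0, dif_pos hA0, ih (A - 1) (by omega) ⟨A - 1, by omega⟩ rfl]
          · rw [dif_neg hA0, dif_neg hA0]
        have h4 := h2 s
        change vv n Z u x B - vv n Z u x A = vv n Z u y B - vv n Z u y A at h4
        have h5 := hx A B hlt hBn
        have h6 := hy A B hlt hBn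
        have h7 : vv n Z u x B = vv n Z u y B := by omega
        rw [vv_pos (by omega) hBn, vv_pos (by omega) hBn] at h7
        have h8 : x ⟨B - 1, by omega⟩ = y ⟨B - 1, by omega⟩ := by omega
        have h9 : (⟨B - 1, by omega⟩ : Fin n) = j := by
          apply Fin.ext
          simp only
          omega
        rw [h9] at h8
        exact h8
      · exact h1 j hjO
  exact funext fun j => key j j rfl

/-- **counting chains** -/
theorem count {n k : ℕ} (Z u : ℕ → ℕ) (hZ1 : ∀ j < n, 1 ≤ Z j)
    (hZ : ∀ j, j + 1 < n → 2 * (u j + Z j) ≤ Z (j + 1)) (Good : (Fin k → ℕ) → Prop)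
    (H : ∀ v : ℕ → ℕ, v 0 = 0 → (∀ i j, i < j → j ≤ n → v i < v j ∧ v j ≤ u (j - 1) + Z (j - 1) ∧
      u (j - 1) < v j - v i) → ∃ p : ℕ → ℕ, (∀ s < k * 2, p s ≤ n) ∧
        (∀ s t, s < t → t < k * 2 → p s < p t) ∧
        Good fun s : Fin k => v (p (s * 2 + 1)) - v (p (s * 2))) :
    ∃ i : Fin k → ℕ, StrictMono i ∧ (∀ s, i s < n) ∧ ∏ s, Z (i s) ≤ 2 ^ k * (n + 1) ^ (k * 2) *
      ((Fintype.piFinset fun s => Ioc (u (i s)) (u (i s) + Z (i s))).filter Good).card := by
  by_contra hcon
  push Not at hcon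
  set Om : Finset (Fin n → ℕ) := Fintype.piFinset fun j : Fin n => XX Z j with hOm
  have hXc : ∀ j : Fin n, (XX Z j).card = Z j - Z j / 2 := fun j => by
    unfold XX
    rw [Nat.card_Icc]
    omega
  have hXp : ∀ j : Fin n, 0 < (XX Z j).card := fun j => by
    rw [hXc]
    have := hZ1 j j.2
    omega
  have hOp : 0 < Om.card := by
    rw [hOm, Fintype.card_piFinset]
    exact prod_pos fun j _ => hXp j
  set A : (Fin (k * 2) → Fin (n + 1)) → Finset (Fin n → ℕ) := fun p => Om.filter fun x =>
    StrictMono p ∧ Good fun s : Fin k =>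
      vv n Z u x (p ⟨(s : ℕ) * 2 + 1, by have := s.2; omega⟩) -
        vv n Z u x (p ⟨(s : ℕ) * 2, by have := s.2; omega⟩) with hA
  have hcov : Om ⊆ univ.biUnion A := by
    intro x hx
    have hx' : ∀ j : Fin n, x j ∈ XX Z j := fun j => Fintype.mem_piFinset.1 hx j
    obtain ⟨p, hp1, hp2, hp3⟩ := H (vv n Z u x) (by unfold vv; rw [dif_neg (by omega)])
      (vv_chain hZ hx')
    refine mem_biUnion.2 ⟨fun s => ⟨p s, by have := hp1 s s.2; omega⟩, mem_univ _,
      mem_filter.2 ⟨hx, ?_, hp3⟩⟩
    intro s t hst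
    rw [Fin.lt_def]
    exact hp2 s t hst t.2
  have hsmall : ∀ p, (n + 1) ^ (k * 2) * (A p).card < Om.card := by
    intro p
    by_cases hp : StrictMono p
    · set i : Fin k → ℕ := fun s => (p ⟨(s : ℕ) * 2 + 1, by have := s.2; omega⟩ : ℕ) - 1 with hi
      have hlt : ∀ s : Fin k, (p ⟨(s : ℕ) * 2, by have := s.2; omega⟩ : ℕ) <
          (p ⟨(s : ℕ) * 2 + 1, by have := s.2; omega⟩ : ℕ) := fun s =>
        hp (by rw [Fin.lt_def]; simp)
      have hle : ∀ s : Fin k, (p ⟨(s : ℕ) * 2 + 1, by have := s.2; omega⟩ : ℕ) ≤ n := fun s => by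
        have := (p ⟨(s : ℕ) * 2 + 1, by have := s.2; omega⟩).2
        omega
      have hin : ∀ s, i s < n := fun s => by
        have h1 := hlt s
        have h2 := hle s
        rw [hi]
        simp only
        omega
      have hmono : StrictMono i := by
        intro s t hst
        have h1 : (p ⟨(s : ℕ) * 2 + 1, by have := s.2; omega⟩ : ℕ) <
            (p ⟨(t : ℕ) * 2 + 1, by have := t.2; omega⟩ : ℕ) :=
          hp (by
            rw [Fin.lt_def] at hst ⊢
            simp only
            omega)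
        have h2 := hlt s
        rw [hi]
        simp only
        omega
      have hfail := hcon i hmono hin
      set o : Fin k → Fin n := fun s => ⟨i s, hin s⟩ with ho
      have hoi : Function.Injective o := by
        intro s t hst
        have h1 := congrArg Fin.val hst
        exact hmono.injective h1
      set O : Finset (Fin n) := univ.image o with hO
      set Om' : Finset (Fin n → ℕ) := Fintype.piFinset fun j : Fin n =>
        if j ∈ O then {1} else XX Z j with hOm'
      have hOp' : 0 < Om'.card := by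
        rw [hOm', Fintype.card_piFinset]
        refine prod_pos fun j _ => ?_
        split_ifs
        · rw [card_singleton]; norm_num
        · exact hXp j
      have hinj : (A p).card ≤
          ((Fintype.piFinset fun s => Ioc (u (i s)) (u (i s) + Z (i s))).filter Good).card *
            Om'.card := by
        rw [← card_product]
        refine card_le_card_of_injOn (fun x => (fun s : Fin k =>
          vv n Z u x (p ⟨(s : ℕ) * 2 + 1, by have := s.2; omega⟩) -
            vv n Z u x (p ⟨(s : ℕ) * 2, by have := s.2; omega⟩),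
          fun j => if j ∈ O then 1 else x j)) ?_ ?_
        · intro x hx
          obtain ⟨hx1, -, hx3⟩ := mem_filter.1 (mem_coe.1 hx)
          have hx' : ∀ j : Fin n, x j ∈ XX Z j := fun j => Fintype.mem_piFinset.1 hx1 j
          rw [mem_coe, mem_product, mem_filter, Fintype.mem_piFinset, Fintype.mem_piFinset]
          refine ⟨⟨fun s => ?_, hx3⟩, fun j => ?_⟩
          · have h1 := vv_chain hZ hx' _ _ (hlt s) (hle s)
            rw [mem_Ioc]
            exact ⟨h1.2.2, (Nat.sub_le _ _).trans h1.2.1⟩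
          · show (if j ∈ O then 1 else x j) ∈ (if j ∈ O then ({1} : Finset ℕ) else XX Z j)
            by_cases hj : j ∈ O
            · rw [if_pos hj, if_pos hj, mem_singleton]
            · rw [if_neg hj, if_neg hj]
              exact hx' j
        · intro x hx y hy hxy
          obtain ⟨hx1, -, -⟩ := mem_filter.1 (mem_coe.1 hx)
          obtain ⟨hy1, -, -⟩ := mem_filter.1 (mem_coe.1 hy)
          have hx' : ∀ j : Fin n, x j ∈ XX Z j := fun j => Fintype.mem_piFinset.1 hx1 j
          have hy' : ∀ j : Fin n, y j ∈ XX Z j := fun j => Fintype.mem_piFinset.1 hy1 j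
          obtain ⟨h1, h2⟩ := Prod.ext_iff.1 hxy
          refine vv_inj (k := k) (fun a b hab hb => (vv_chain hZ hx' a b hab hb).1)
            (fun a b hab hb => (vv_chain hZ hy' a b hab hb).1) p hp O ?_ ?_ (fun s => congrFun h1 s)
          · intro j hj
            obtain ⟨s, -, rfl⟩ := mem_image.1 hj
            refine ⟨s, ?_⟩
            have h3 := hlt s
            show _ = i s + 1
            rw [hi]
            simp only
            omega
          · intro j hj
            have h3 := congrFun h2 j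
            simp only [if_neg hj] at h3
            exact h3
      have hprod : Om.card = (∏ s, (XX Z (i s)).card) * Om'.card := by
        rw [hOm, hOm', Fintype.card_piFinset, Fintype.card_piFinset]
        have e1 : ∏ s, (XX Z (i s)).card = ∏ j ∈ O, (XX Z j).card := by
          rw [hO, prod_image fun s _ t _ h => hoi h]
        have e2 : ∏ j ∈ O, (XX Z j).card = ∏ j : Fin n, if j ∈ O then (XX Z j).card else 1 := by
          rw [prod_ite, prod_const_one, mul_one]
          refine prod_congr ?_ fun _ _ => rfl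
          ext j
          simp
        rw [e1, e2, ← prod_mul_distrib]
        refine prod_congr rfl fun j _ => ?_
        by_cases hj : j ∈ O
        · rw [if_pos hj, if_pos hj, card_singleton, mul_one]
        · rw [if_neg hj, if_neg hj, one_mul]
      have htwo : ∏ s, Z (i s) ≤ 2 ^ k * ∏ s, (XX Z (i s)).card := by
        have e3 : (2 : ℕ) ^ k = ∏ _s : Fin k, 2 := by
          rw [prod_const, card_univ, Fintype.card_fin]
        rw [e3, ← prod_mul_distrib]
        refine prod_le_prod' fun s _ => ?_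
        have h1 : (XX Z (i s)).card = Z (i s) - Z (i s) / 2 := hXc (o s)
        rw [h1]
        omega
      set g := ((Fintype.piFinset fun s => Ioc (u (i s)) (u (i s) + Z (i s))).filter Good).card
        with hg
      have h5 : 2 ^ k * ((n + 1) ^ (k * 2) * (A p).card) < 2 ^ k * Om.card := by
        calc 2 ^ k * ((n + 1) ^ (k * 2) * (A p).card)
            ≤ 2 ^ k * ((n + 1) ^ (k * 2) * (g * Om'.card)) := by gcongr
          _ = 2 ^ k * (n + 1) ^ (k * 2) * g * Om'.card := by ring
          _ < (∏ s, Z (i s)) * Om'.card := Nat.mul_lt_mul_of_pos_right hfail hOp'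
          _ ≤ 2 ^ k * (∏ s, (XX Z (i s)).card) * Om'.card := Nat.mul_le_mul_right _ htwo
          _ = 2 ^ k * Om.card := by rw [hprod]; ring
      exact Nat.lt_of_mul_lt_mul_left h5
    · have h1 : (A p) = ∅ := by
        rw [hA]
        refine filter_eq_empty_iff.2 fun x _ h => hp h.1
      rw [h1, card_empty, mul_zero]
      exact hOp
  have hN : Fintype.card (Fin (k * 2) → Fin (n + 1)) = (n + 1) ^ (k * 2) := by
    rw [Fintype.card_fun, Fintype.card_fin, Fintype.card_fin]
  have h1 : Om.card ≤ ∑ p, (A p).card := (card_le_card hcov).trans card_biUnion_le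
  have h2 : (n + 1) ^ (k * 2) * Om.card ≤ ∑ p, (n + 1) ^ (k * 2) * (A p).card := by
    rw [← mul_sum]
    exact Nat.mul_le_mul_left _ h1
  have h3 : ∑ p, (n + 1) ^ (k * 2) * (A p).card < ∑ _p : Fin (k * 2) → Fin (n + 1), Om.card := by
    refine sum_lt_sum_of_nonempty ?_ fun p _ => hsmall p
    exact univ_nonempty
  rw [sum_const, card_univ, hN, smul_eq_mul] at h3
  omega

end Pool.Agent.J4H77.EI
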